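import Mathlib
import Pool.Agent.V1129.Cactus

set_option autoImplicit false

/-!
The cactus group `J_n` contains a free abelian group of rank `⌊(n-1)/2⌋`.  In particular `J₅`
contains `ℤ²`, although `⌊5/3⌋ = 1`.
-/

namespace Pool.Agent.Results.MP_fc7805_al.LargeRank

open Pool.Agent.V1129.Cactus

/-! ### The action on labelled triples -/

/-- The indicator of `x < t`. -/
def ind (x t : ℕ) : ℤ := if x < t then 1 else 0

/-- The number of the three positions which are smaller than `t`. -/
def c (x : ℕ × ℕ × ℕ) (t : ℕ) : ℤ := ind x.1 t + ind x.2.1 t + ind x.2.2 t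

/-- The reversal of positions. -/
def rv (p q : ℕ) (x : ℕ × ℕ × ℕ) : ℕ × ℕ × ℕ := (revFun p q x.1, revFun p q x.2.1, revFun p q x.2.2)

theorem rv_invol (p q : ℕ) (x : ℕ × ℕ × ℕ) : rv p q (rv p q x) = x := by
  simp only [rv, revFun_invol]

theorem ind_rev_out (p q x t : ℕ) (h : t ≤ p ∨ q < t) : ind (revFun p q x) t = ind x t := by
  unfold ind revFun
  split_ifs <;> omega

theorem c_rv_out (p q : ℕ) (x : ℕ × ℕ × ℕ) (t : ℕ) (h : t ≤ p ∨ q < t) :
    c (rv p q x) t = c x t := by
  simp only [c, rv, ind_rev_out _ _ _ _ h]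

theorem ind_rev_in (p q x r : ℕ) (h1 : p ≤ r + 1) (h2 : r ≤ q) :
    ind (revFun p q x) (p + q - r) = ind x p + ind x (q + 1) - ind x (r + 1) := by
  unfold ind revFun
  split_ifs <;> omega

theorem c_rv_in (p q : ℕ) (x : ℕ × ℕ × ℕ) (r : ℕ) (h1 : p ≤ r + 1) (h2 : r ≤ q) :
    c (rv p q x) (p + q - r) = c x p + c x (q + 1) - c x (r + 1) := by
  simp only [c, rv, ind_rev_in _ _ _ _ h1 h2]
  ring

theorem ind_mono (x s t : ℕ) (h : s ≤ t) : ind x s ≤ ind x t := by
  unfold ind
  split_ifs <;> omega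

theorem c_mono (x : ℕ × ℕ × ℕ) (s t : ℕ) (h : s ≤ t) : c x s ≤ c x t := by
  unfold c
  have := ind_mono x.1 s t h
  have := ind_mono x.2.1 s t h
  have := ind_mono x.2.2 s t h
  omega

theorem c_le (x : ℕ × ℕ × ℕ) (t : ℕ) : 0 ≤ c x t ∧ c x t ≤ 3 := by
  unfold c ind
  split_ifs <;> omega

/-- The reflection part. -/
def refl (p q : ℕ) (x : ℕ × ℕ × ℕ) (v : ℤ) : ℤ :=
  if c x p + 2 ≤ c x (q + 1) then c x p + c x (q + 1) - 2 - v else v

/-- The action of `s_{p,q}`. -/
def act (p q : ℕ) (y : (ℕ × ℕ × ℕ) × ℤ) : (ℕ × ℕ × ℕ) × ℤ := (rv p q y.1, refl p q y.1 y.2)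

theorem act_invol (p q : ℕ) (y : (ℕ × ℕ × ℕ) × ℤ) :
    act p q (act p q y) = y := by
  obtain ⟨x, v⟩ := y
  unfold act
  simp only [rv_invol, refl]
  rw [c_rv_out p q x p (Or.inl le_rfl), c_rv_out p q x (q + 1) (Or.inr (Nat.lt_succ_self q))]
  refine Prod.ext rfl ?_
  simp only
  split_ifs
  · ring
  · rfl

/-- The action of `s_{p,q}` as a permutation. -/
def actPerm {n : ℕ} (x : Gen n) : Equiv.Perm ((ℕ × ℕ × ℕ) × ℤ) :=
  Function.Involutive.toPerm (act x.1.1 x.1.2) (act_invol _ _)

theorem actPerm_apply {n : ℕ} (x : Gen n) (y : (ℕ × ℕ × ℕ) × ℤ) :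
    actPerm x y = act x.1.1 x.1.2 y := rfl

theorem rv_comm (p q m r : ℕ) (h : q < m) (hpq : p < q) (x : ℕ × ℕ × ℕ) :
    rv p q (rv m r x) = rv m r (rv p q x) := by
  have key : ∀ i, revFun p q (revFun m r i) = revFun m r (revFun p q i) := by
    intro i
    unfold revFun
    split_ifs <;> omega
  simp only [rv, key]

theorem rv_nest (p q m r : ℕ) (h1 : p ≤ m) (h2 : r ≤ q) (h3 : m < r) (x : ℕ × ℕ × ℕ) :
    rv p q (rv m r x) = rv (p + q - r) (p + q - m) (rv p q x) := by
  have key : ∀ i, revFun p q (revFun m r i) =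
      revFun (p + q - r) (p + q - m) (revFun p q i) := by
    intro i
    unfold revFun
    split_ifs <;> omega
  simp only [rv, key]

/-- The homomorphism to the permutations of labelled triples. -/
def Φ (n : ℕ) : J n →* Equiv.Perm ((ℕ × ℕ × ℕ) × ℤ) :=
  lift actPerm
    (by
      intro x
      ext1 y
      rw [Equiv.Perm.mul_apply, actPerm_apply, actPerm_apply, act_invol]
      rfl)
    (by
      rintro ⟨⟨p, q⟩, hx⟩ ⟨⟨m, r⟩, hy⟩ h
      simp only at h hx hy
      ext1 ⟨x, v⟩
      simp only [Equiv.Perm.mul_apply, actPerm_apply, act]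
      refine Prod.ext (rv_comm p q m r h hx.2.1 x) ?_
      simp only [refl]
      rw [c_rv_out m r x p (Or.inl (by omega)), c_rv_out m r x (q + 1) (Or.inl (by omega)),
        c_rv_out p q x m (Or.inr (by omega)), c_rv_out p q x (r + 1) (Or.inr (by omega))]
      have a1 := c_le x p
      have a2 := c_le x (r + 1)
      have a3 := c_mono x (q + 1) m (by omega)
      split_ifs <;> omega)
    (by
      rintro ⟨⟨p, q⟩, hx⟩ ⟨⟨m, r⟩, hy⟩ ⟨⟨a, b⟩, hz⟩ h1 h2 h3 h4
      simp only at h1 h2 h3 h4 hx hy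
      subst h3 h4
      ext1 ⟨x, v⟩
      simp only [Equiv.Perm.mul_apply, actPerm_apply, act]
      refine Prod.ext (rv_nest p q m r h1 h2 hy.2.1 x) ?_
      simp only [refl]
      have e : p + q - m + 1 = p + q - (m - 1) := by omega
      rw [c_rv_out m r x p (Or.inl (by omega)), c_rv_out m r x (q + 1) (Or.inr (by omega)),
        c_rv_in p q x r (by omega) h2, e, c_rv_in p q x (m - 1) (by omega) (by omega)]
      have e2 : m - 1 + 1 = m := by omega
      rw [e2]
      have a1 := c_mono x p m (by omega)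
      have a2 := c_mono x (r + 1) (q + 1) (by omega)
      split_ifs <;> omega)

theorem Φ_s {n p q : ℕ} (h : 1 ≤ p ∧ p < q ∧ q ≤ n) (y : (ℕ × ℕ × ℕ) × ℤ) :
    Φ n (s n p q) y = act p q y := by
  rw [Φ, lift_s _ _ _ _ h]
  rfl

/-! ### The commuting elements -/

/-- The element `y_a` for a block of `a` letters followed by two more letters. -/
def yy (n a : ℕ) : J n :=
  s n 1 (a + 1) * (s n 1 (a + 2) * (s n 1 (a + 1) * (s n 1 (a + 2) *
    (s n 1 2 * (s n 1 (a + 2) * s n 1 a)))))

/-- Moving a generator through another one. -/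
theorem s_swap (n p q m r m' r' : ℕ) (h1 : p ≤ m) (h2 : r ≤ q) (hm : 1 ≤ p) (hq : q ≤ n)
    (e1 : p + q - r = m') (e2 : p + q - m = r') : s n p q * s n m r = s n m' r' * s n p q := by
  rw [s_nest n p q m r h1 h2 hm hq, e1, e2]

theorem yy_comm_s (n a p q : ℕ) (ha : a + 2 ≤ n) (hp : 1 ≤ p) (hq : q ≤ a) (hpq : p < q) :
    yy n a * s n p q = s n p q * yy n a := by
  unfold yy
  have k0 : s n 1 a * s n p q = s n (a + 1 - q) (a + 1 - p) * s n 1 a :=
    s_swap n 1 a p q _ _ hp hq le_rfl (by omega) (by omega) (by omega)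
  have k1 : s n 1 (a + 2) * s n (a + 1 - q) (a + 1 - p) = s n (p + 2) (q + 2) * s n 1 (a + 2) :=
    s_swap n 1 (a + 2) _ _ _ _ (by omega) (by omega) le_rfl (by omega) (by omega) (by omega)
  have k2 : s n 1 2 * s n (p + 2) (q + 2) = s n (p + 2) (q + 2) * s n 1 2 :=
    s_disj n 1 2 _ _ (by omega)
  have k3 : s n 1 (a + 2) * s n (p + 2) (q + 2) = s n (a + 1 - q) (a + 1 - p) * s n 1 (a + 2) :=
    s_swap n 1 (a + 2) _ _ _ _ (by omega) (by omega) le_rfl (by omega) (by omega) (by omega)
  have k4 : s n 1 (a + 1) * s n (a + 1 - q) (a + 1 - p) = s n (p + 1) (q + 1) * s n 1 (a + 1) :=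
    s_swap n 1 (a + 1) _ _ _ _ (by omega) (by omega) le_rfl (by omega) (by omega) (by omega)
  have k5 : s n 1 (a + 2) * s n (p + 1) (q + 1) = s n (a + 2 - q) (a + 2 - p) * s n 1 (a + 2) :=
    s_swap n 1 (a + 2) _ _ _ _ (by omega) (by omega) le_rfl (by omega) (by omega) (by omega)
  have k6 : s n 1 (a + 1) * s n (a + 2 - q) (a + 2 - p) = s n p q * s n 1 (a + 1) :=
    s_swap n 1 (a + 1) _ _ _ _ (by omega) (by omega) le_rfl (by omega) (by omega) (by omega)
  generalize s n 1 (a + 1) = A at *
  generalize s n 1 (a + 2) = B at *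
  generalize s n 1 2 = C at *
  generalize s n 1 a = D at *
  generalize s n p q = X0 at *
  generalize s n (a + 1 - q) (a + 1 - p) = X1 at *
  generalize s n (p + 2) (q + 2) = X2 at *
  generalize s n (p + 1) (q + 1) = X3 at *
  generalize s n (a + 2 - q) (a + 2 - p) = X4 at *
  simp only [mul_assoc]
  rw [k0]
  rw [← mul_assoc B X1, k1]
  simp only [mul_assoc]
  rw [← mul_assoc C X2, k2]
  simp only [mul_assoc]
  rw [← mul_assoc B X2, k3]
  simp only [mul_assoc]
  rw [← mul_assoc A X1, k4]
  simp only [mul_assoc]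
  rw [← mul_assoc B X3, k5]
  simp only [mul_assoc]
  rw [← mul_assoc A X4, k6]
  simp only [mul_assoc]

theorem yy_comm (n a b : ℕ) (ha : a + 2 ≤ n) (hb : b + 2 ≤ a) :
    yy n a * yy n b = yy n b * yy n a := by
  have key : ∀ p q, 1 ≤ p → q ≤ a → Commute (yy n a) (s n p q) := by
    intro p q hp hq
    by_cases hpq : p < q
    · exact yy_comm_s n a p q ha hp hq hpq
    · rw [s_triv (by omega)]
      exact Commute.one_right _
  have h1 := key 1 (b + 1) le_rfl (by omega)
  have h2 := key 1 (b + 2) le_rfl (by omega)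
  have h3 := key 1 2 le_rfl (by omega)
  have h4 := key 1 b le_rfl (by omega)
  have : Commute (yy n a) (yy n b) := by
    conv_rhs => unfold yy
    exact h1.mul_right (h2.mul_right (h1.mul_right (h2.mul_right (h3.mul_right
      (h2.mul_right h4)))))
  exact this.eq

/-! ### Translations -/

/-- `g` translates the second coordinate by `d` over the triple `x`. -/
def Tr (n : ℕ) (x : ℕ × ℕ × ℕ) (g : J n) (d : ℤ) : Prop := ∀ v, Φ n g (x, v) = (x, v + d)

theorem Tr.one (n : ℕ) (x : ℕ × ℕ × ℕ) : Tr n x 1 0 := by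
  intro v
  rw [map_one]
  simp

theorem Tr.mul {n : ℕ} {x : ℕ × ℕ × ℕ} {g h : J n} {d e : ℤ} (hg : Tr n x g d) (hh : Tr n x h e) :
    Tr n x (g * h) (d + e) := by
  intro v
  rw [map_mul, Equiv.Perm.mul_apply, hh v, hg]
  refine Prod.ext rfl ?_
  simp only
  ring

theorem Tr.inv {n : ℕ} {x : ℕ × ℕ × ℕ} {g : J n} {d : ℤ} (hg : Tr n x g d) :
    Tr n x g⁻¹ (-d) := by
  intro v
  rw [map_inv, Equiv.Perm.inv_eq_iff_eq, hg]
  refine Prod.ext rfl ?_
  simp only
  ring

theorem Tr.zpow {n : ℕ} {x : ℕ × ℕ × ℕ} {g : J n} {d : ℤ} (hg : Tr n x g d) (k : ℤ) :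
    Tr n x (g ^ k) (k * d) := by
  induction k using Int.induction_on with
  | zero => simpa using Tr.one n x
  | succ i ih =>
    rw [zpow_add_one, add_mul, one_mul]
    exact ih.mul hg
  | pred i ih =>
    rw [zpow_sub_one, sub_mul, one_mul, sub_eq_add_neg]
    exact ih.mul hg.inv

/-- The base triple for the block of `a` letters. -/
def bs (a : ℕ) : ℕ × ℕ × ℕ := (1, a + 1, a + 2)

theorem Φ_s_all {n p q : ℕ} (hp : 1 ≤ p) (hpq : p ≤ q) (hq : q ≤ n) (y : (ℕ × ℕ × ℕ) × ℤ)
    (hy : p = q → c y.1 (q + 1) < c y.1 p + 2) :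
    Φ n (s n p q) y = act p q y := by
  rcases lt_or_eq_of_le hpq with h | h
  · exact Φ_s ⟨hp, h, hq⟩ y
  · subst h
    rw [s_triv (by omega), map_one]
    unfold act
    obtain ⟨x, v⟩ := y
    refine Prod.ext ?_ ?_
    · have key : ∀ i, revFun p p i = i := by
        intro i
        unfold revFun
        split_ifs <;> omega
      simp only [rv, key]
      rfl
    · simp only [refl]
      have := hy rfl
      rw [if_neg (by simpa using this)]
      rfl

theorem act_eq (p q x1 x2 x3 y1 y2 y3 : ℕ) (v w k l : ℤ) (h1 : revFun p q x1 = y1)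
    (h2 : revFun p q x2 = y2) (h3 : revFun p q x3 = y3) (hk : c (x1, x2, x3) p = k)
    (hl : c (x1, x2, x3) (q + 1) = l) (hw : (if k + 2 ≤ l then k + l - 2 - v else v) = w) :
    act p q ((x1, x2, x3), v) = ((y1, y2, y3), w) := by
  unfold act rv refl
  simp only [h1, h2, h3, hk, hl, hw]

theorem yy_self (n a : ℕ) (ha : 1 ≤ a) (han : a + 2 ≤ n) : Tr n (bs a) (yy n a) (-3) := by
  intro v
  have t0 : Φ n (s n 1 a) ((1, a + 1, a + 2), v) = ((a, a + 1, a + 2), v) := by
    rw [Φ_s_all le_rfl ha (by omega) _ (by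
      intro h
      simp only [c, ind]
      split_ifs <;> omega)]
    apply act_eq _ _ _ _ _ _ _ _ _ _ 0 1
    · unfold revFun; split_ifs <;> omega
    · unfold revFun; split_ifs <;> omega
    · unfold revFun; split_ifs <;> omega
    · simp only [c, ind]; split_ifs <;> omega
    · simp only [c, ind]; split_ifs <;> omega
    · norm_num
  have t1 : Φ n (s n 1 (a + 2)) ((a, a + 1, a + 2), v) = ((3, 2, 1), 1 - v) := by
    rw [Φ_s (by omega)]
    apply act_eq _ _ _ _ _ _ _ _ _ _ 0 3
    · unfold revFun; split_ifs <;> omega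
    · unfold revFun; split_ifs <;> omega
    · unfold revFun; split_ifs <;> omega
    · simp only [c, ind]; split_ifs <;> omega
    · simp only [c, ind]; split_ifs <;> omega
    · norm_num
  have t2 : Φ n (s n 1 2) ((3, 2, 1), 1 - v) = ((3, 1, 2), v - 1) := by
    rw [Φ_s (by omega)]
    apply act_eq _ _ _ _ _ _ _ _ _ _ 0 2
    · unfold revFun; split_ifs <;> omega
    · unfold revFun; split_ifs <;> omega
    · unfold revFun; split_ifs <;> omega
    · simp only [c, ind]; split_ifs <;> omega
    · simp only [c, ind]; split_ifs <;> omega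
    · norm_num
  have t3 : Φ n (s n 1 (a + 2)) ((3, 1, 2), v - 1) = ((a, a + 2, a + 1), 2 - v) := by
    rw [Φ_s (by omega)]
    apply act_eq _ _ _ _ _ _ _ _ _ _ 0 3
    · unfold revFun; split_ifs <;> omega
    · unfold revFun; split_ifs <;> omega
    · unfold revFun; split_ifs <;> omega
    · simp only [c, ind]; split_ifs <;> omega
    · simp only [c, ind]; split_ifs <;> omega
    · norm_num; ring
  have t4 : Φ n (s n 1 (a + 1)) ((a, a + 2, a + 1), 2 - v) = ((2, a + 2, 1), v - 2) := by
    rw [Φ_s (by omega)]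
    apply act_eq _ _ _ _ _ _ _ _ _ _ 0 2
    · unfold revFun; split_ifs <;> omega
    · unfold revFun; split_ifs <;> omega
    · unfold revFun; split_ifs <;> omega
    · simp only [c, ind]; split_ifs <;> omega
    · simp only [c, ind]; split_ifs <;> omega
    · norm_num
  have t5 : Φ n (s n 1 (a + 2)) ((2, a + 2, 1), v - 2) = ((a + 1, 1, a + 2), 3 - v) := by
    rw [Φ_s (by omega)]
    apply act_eq _ _ _ _ _ _ _ _ _ _ 0 3
    · unfold revFun; split_ifs <;> omega
    · unfold revFun; split_ifs <;> omega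
    · unfold revFun; split_ifs <;> omega
    · simp only [c, ind]; split_ifs <;> omega
    · simp only [c, ind]; split_ifs <;> omega
    · norm_num; ring
  have t6 : Φ n (s n 1 (a + 1)) ((a + 1, 1, a + 2), 3 - v) = ((1, a + 1, a + 2), v + -3) := by
    rw [Φ_s (by omega)]
    apply act_eq _ _ _ _ _ _ _ _ _ _ 0 2
    · unfold revFun; split_ifs <;> omega
    · unfold revFun; split_ifs <;> omega
    · unfold revFun; split_ifs <;> omega
    · simp only [c, ind]; split_ifs <;> omega
    · simp only [c, ind]; split_ifs <;> omega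
    · norm_num; ring
  unfold yy bs
  simp only [map_mul, Equiv.Perm.mul_apply]
  rw [t0, t1, t2, t3, t4, t5, t6]

/-- The elements for smaller blocks do not move the triple. -/
theorem yy_lower (n a b : ℕ) (hb : 1 ≤ b) (hba : b + 2 ≤ a) (han : a + 2 ≤ n) :
    Tr n (bs a) (yy n b) 0 := by
  intro v
  -- only the first label moves
  have step : ∀ q x : ℕ, 1 ≤ q → q ≤ a → 1 ≤ x → x ≤ a →
      Φ n (s n 1 q) ((x, a + 1, a + 2), v) = ((revFun 1 q x, a + 1, a + 2), v) := by
    intro q x hq hqa hx hxa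
    rw [Φ_s_all le_rfl hq (by omega) _ (by
      intro h
      simp only [c, ind]
      split_ifs <;> omega)]
    apply act_eq _ _ _ _ _ _ _ _ _ _ 0 (if x ≤ q then 1 else 0)
    · rfl
    · unfold revFun; split_ifs <;> omega
    · unfold revFun; split_ifs <;> omega
    · simp only [c, ind]; split_ifs <;> omega
    · simp only [c, ind]; split_ifs <;> omega
    · split_ifs <;> omega
  have r0 : revFun 1 b 1 = b := by unfold revFun; split_ifs <;> omega
  have r1 : revFun 1 (b + 2) b = 3 := by unfold revFun; split_ifs <;> omega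
  have r2 : revFun 1 2 3 = 3 := by unfold revFun; split_ifs <;> omega
  have r3 : revFun 1 (b + 2) 3 = b := by unfold revFun; split_ifs <;> omega
  have r4 : revFun 1 (b + 1) b = 2 := by unfold revFun; split_ifs <;> omega
  have r5 : revFun 1 (b + 2) 2 = b + 1 := by unfold revFun; split_ifs <;> omega
  have r6 : revFun 1 (b + 1) (b + 1) = 1 := by unfold revFun; split_ifs <;> omega
  unfold yy bs
  simp only [map_mul, Equiv.Perm.mul_apply]
  rw [step b 1 hb (by omega) le_rfl (by omega), r0,
    step (b + 2) b (by omega) (by omega) hb (by omega), r1,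
    step 2 3 (by omega) (by omega) (by omega) (by omega), r2,
    step (b + 2) 3 (by omega) (by omega) (by omega) (by omega), r3,
    step (b + 1) b (by omega) (by omega) (by omega) (by omega), r4,
    step (b + 2) 2 (by omega) (by omega) (by omega) (by omega), r5,
    step (b + 1) (b + 1) (by omega) (by omega) (by omega) (by omega), r6]
  simp

/-! ### The free abelian subgroup -/

/-- The generators of the free abelian subgroup. -/
def gen (n : ℕ) {m : ℕ} (i : Fin m) : J n := yy n (2 * i + 1)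

theorem gen_comm {n m : ℕ} (h : 2 * m + 1 ≤ n) (i j : Fin m) (hij : i < j) :
    Commute (gen n i) (gen n j) := by
  have h1 : (i : ℕ) < j := hij
  have h2 := j.2
  exact (yy_comm n (2 * j + 1) (2 * i + 1) (by omega) (by omega)).symm

theorem gen_commute {n m : ℕ} (h : 2 * m + 1 ≤ n) :
    Pairwise fun i j : Fin m => ∀ x y : Multiplicative ℤ,
      Commute (zpowersHom (J n) (gen n i) x) (zpowersHom (J n) (gen n j) y) := by
  intro i j hij x y
  rw [zpowersHom_apply, zpowersHom_apply]
  rcases lt_or_gt_of_ne hij with h1 | h1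
  · exact (gen_comm h i j h1).zpow_zpow _ _
  · exact (gen_comm h j i h1).symm.zpow_zpow _ _

/-- The homomorphism `ℤ^m → J_n`. -/
def emb {n m : ℕ} (h : 2 * m + 1 ≤ n) : (Fin m → Multiplicative ℤ) →* J n :=
  MonoidHom.noncommPiCoprod (fun i => zpowersHom (J n) (gen n i)) (gen_commute h)

theorem emb_inj {n m : ℕ} (h : 2 * m + 1 ≤ n) : Function.Injective (emb h) := by
  classical
  rw [injective_iff_map_eq_one]
  intro k hk
  by_contra hne
  -- the largest index with a nontrivial coordinate
  have hex : (Finset.univ.filter fun i : Fin m => k i ≠ 1).Nonempty := by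
    by_contra hcon
    rw [Finset.not_nonempty_iff_eq_empty] at hcon
    apply hne
    funext i
    by_contra hi
    have : i ∈ Finset.univ.filter fun i : Fin m => k i ≠ 1 := by simpa using hi
    rw [hcon] at this
    simp at this
  set j := (Finset.univ.filter fun i : Fin m => k i ≠ 1).max' hex with hj
  have hjmem := Finset.max'_mem _ hex
  rw [← hj] at hjmem
  have hkj : k j ≠ 1 := by simpa using hjmem
  have hmax : ∀ i, j < i → k i = 1 := by
    intro i hi
    by_contra hki
    have hmem : i ∈ Finset.univ.filter fun i : Fin m => k i ≠ 1 := by simpa using hki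
    have := Finset.le_max' _ i hmem
    rw [← hj] at this
    exact absurd hi (not_lt.mpr this)
  have hj2 := j.2
  -- split off the `j`-th coordinate
  let k' : Fin m → Multiplicative ℤ := Function.update k j 1
  have hsplit : k = k' * Pi.mulSingle j (k j) := by
    funext i
    by_cases hij : i = j
    · subst hij
      simp [k']
    · simp [k', hij]
  have h1 : Tr n (bs (2 * j + 1)) (emb h k') 0 := by
    have hgen : ∀ i : Fin m, Tr n (bs (2 * j + 1)) (zpowersHom (J n) (gen n i) (k' i)) 0 := by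
      intro i
      rcases lt_trichotomy i j with hij | hij | hij
      · have hij' : (i : ℕ) < j := hij
        have := (yy_lower n (2 * j + 1) (2 * i + 1) (by omega) (by omega) (by omega)).zpow
          (k' i).toAdd
        rw [mul_zero] at this
        rw [zpowersHom_apply]
        exact this
      · subst hij
        simpa [k'] using Tr.one n _
      · have : k' i = 1 := by
          simp only [k', Function.update_of_ne hij.ne', hmax i hij]
        rw [this, map_one]
        exact Tr.one n _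
    have e : emb h k' = Finset.univ.noncommProd
        (fun i => zpowersHom (J n) (gen n i) (k' i))
        (fun i _ j _ hij => gen_commute h hij _ _) := rfl
    rw [e]
    refine Finset.noncommProd_induction _ _ _ (fun g => Tr n (bs (2 * j + 1)) g 0) ?_ ?_ ?_
    · intro a b ha hb
      have := ha.mul hb
      rwa [add_zero] at this
    · exact Tr.one n _
    · intro i _
      exact hgen i
  have h2 : Tr n (bs (2 * j + 1)) (emb h (Pi.mulSingle j (k j))) ((k j).toAdd * -3) := by
    unfold emb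
    rw [MonoidHom.noncommPiCoprod_mulSingle, zpowersHom_apply]
    exact (yy_self n (2 * j + 1) (by omega) (by omega)).zpow _
  have h3 := h1.mul h2
  rw [← map_mul, ← hsplit, hk] at h3
  have h4 := h3 0
  rw [map_one] at h4
  have h5 : (0 : ℤ) = 0 + (0 + (k j).toAdd * -3) := congrArg Prod.snd h4
  have h6 : (k j).toAdd = 0 := by omega
  apply hkj
  exact Multiplicative.toAdd.injective h6

/-- `J_n` contains a free abelian subgroup of rank `m` whenever `2 m + 1 ≤ n`; consequently it is
not true that `J_n` contains `ℤ^k` exactly for `k ≤ ⌊n/3⌋`: this fails for `n = 5` and for all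
`n ≥ 7`. -/
theorem result :
    (∀ n m : ℕ, 2 * m + 1 ≤ n → ∃ f : (Fin m → Multiplicative ℤ) →* J n, Function.Injective f) ∧
    (∀ n : ℕ, n = 5 ∨ 7 ≤ n → ∃ k : ℕ, n / 3 < k ∧
      ∃ f : (Fin k → Multiplicative ℤ) →* J n, Function.Injective f) := by
  have h1 : ∀ n m : ℕ, 2 * m + 1 ≤ n →
      ∃ f : (Fin m → Multiplicative ℤ) →* J n, Function.Injective f :=
    fun n m h => ⟨emb h, emb_inj h⟩
  refine ⟨h1, ?_⟩
  intro n hn
  exact ⟨(n - 1) / 2, by omega, h1 n _ (by omega)⟩

end Pool.Agent.Results.MP_fc7805_al.LargeRank
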